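import Pool.Agent.Run7.h450.CS.Iface

/-!
# Piece ALG of project CL (helper450)
-/

set_option autoImplicit false
open Matrix

namespace Run7.helper722.CL

open Run7.h450.CL

lemma rot {K : Type} [Fintype K] [DecidableEq K] (p : ℕ) (W : Matrix K K ℂ)
    (Y : Fin (p + 1) → Matrix K K ℂ) (h0 : W * Y 0 = Y 0 * W) :
    (W * wd (fun k => Y (finRotate (p + 1) k))).trace = (W * wd Y).trace := by
  have h1 : wd (fun k => Y (finRotate (p + 1) k)) = wd (fun k : Fin p => Y k.succ) * Y 0 := by
    unfold wd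
    rw [List.ofFn_succ', List.prod_concat, finRotate_last]
    congr 3
    funext i
    rw [finRotate_apply, Fin.coeSucc_eq_succ]
  have h2 : wd Y = Y 0 * wd (fun k : Fin p => Y k.succ) := by
    unfold wd
    rw [List.ofFn_succ, List.prod_cons]
  rw [h1, h2, ← mul_assoc, Matrix.trace_mul_comm, ← mul_assoc, ← h0, mul_assoc]

lemma sg_mul {m : ℕ} (a b : Equiv.Perm (Fin m)) : sg (a * b) = sg a * sg b := by
  unfold sg
  rw [Equiv.Perm.sign_mul]
  push_cast
  rfl

theorem t_ALG : S_ALG := by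
  intro K _ _ p W X hp hW
  have hZ : ∑ σ : Equiv.Perm (Fin (p + 1)), sg σ * (W * wd (fun k => X (σ k))).trace = 0 := by
    have h1 : ∑ σ : Equiv.Perm (Fin (p + 1)), sg σ * (W * wd (fun k => X (σ k))).trace
        = ∑ σ : Equiv.Perm (Fin (p + 1)), sg (σ * finRotate (p + 1)) *
          (W * wd (fun k => X ((σ * finRotate (p + 1)) k))).trace :=
      (Equiv.sum_comp (Equiv.mulRight (finRotate (p + 1)))
        (fun σ : Equiv.Perm (Fin (p + 1)) => sg σ * (W * wd (fun k => X (σ k))).trace)).symm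
    have h2 : ∀ σ : Equiv.Perm (Fin (p + 1)), sg (σ * finRotate (p + 1)) *
          (W * wd (fun k => X ((σ * finRotate (p + 1)) k))).trace
        = -(sg σ * (W * wd (fun k => X (σ k))).trace) := by
      intro σ
      have h3 : (W * wd (fun k => X ((σ * finRotate (p + 1)) k))).trace
          = (W * wd (fun k => X (σ k))).trace := rot p W (fun k => X (σ k)) (hW _)
      have h4 : sg (finRotate (p + 1)) = -1 := by
        unfold sg
        rw [sign_finRotate, Nat.add_sub_cancel, hp.neg_one_pow]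
        simp
      rw [h3, sg_mul, h4]
      ring
    rw [Finset.sum_congr rfl (fun σ _ => h2 σ), Finset.sum_neg_distrib] at h1
    exact self_eq_neg.1 h1
  have h5 : ∀ τ : Equiv.Perm (Fin (p + 1)), sg τ * ∑ l : Fin p,
      (W * wd (fun k : Fin (p + 1) => X (τ (Fin.cycleRange l.castSucc k)))).trace
      = ∑ l : Fin p, sg τ *
      (W * wd (fun k : Fin (p + 1) => X (τ (Fin.cycleRange l.castSucc k)))).trace :=
    fun τ => Finset.mul_sum _ _ _
  rw [Finset.sum_congr rfl (fun τ _ => h5 τ), Finset.sum_comm]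
  refine Finset.sum_eq_zero fun l _ => ?_
  set c : Equiv.Perm (Fin (p + 1)) := Fin.cycleRange l.castSucc with hc
  have h6 : ∑ τ : Equiv.Perm (Fin (p + 1)), sg τ * (W * wd (fun k => X (τ (c k)))).trace
      = ∑ τ : Equiv.Perm (Fin (p + 1)),
        sg c⁻¹ * (sg (τ * c) * (W * wd (fun k => X ((τ * c) k))).trace) := by
    refine Finset.sum_congr rfl fun τ _ => ?_
    have h7 : sg τ = sg c⁻¹ * sg (τ * c) := by
      rw [← sg_mul]
      unfold sg
      rw [Equiv.Perm.sign_mul, Equiv.Perm.sign_mul, mul_comm (Equiv.Perm.sign τ), ← mul_assoc,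
        ← Equiv.Perm.sign_mul, inv_mul_cancel, Equiv.Perm.sign_one, one_mul]
    rw [← mul_assoc, ← h7]
    rfl
  rw [h6, ← Finset.mul_sum]
  have h8 : ∑ τ : Equiv.Perm (Fin (p + 1)),
      sg (τ * c) * (W * wd (fun k => X ((τ * c) k))).trace
      = ∑ σ : Equiv.Perm (Fin (p + 1)), sg σ * (W * wd (fun k => X (σ k))).trace :=
    Equiv.sum_comp (Equiv.mulRight c)
      (fun σ : Equiv.Perm (Fin (p + 1)) => sg σ * (W * wd (fun k => X (σ k))).trace)
  rw [h8, hZ, mul_zero]

end Run7.helper722.CL
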