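import Pool.Agent.Run7.h450.CS.Iface

/-!
# Piece FL0 of project CL (helper450)
-/

set_option autoImplicit false
open Matrix MeasureTheory

namespace Run7.helper722.CL

open Run7.h450.CL

theorem t_FL0 (hV : S_V0) (hG : S_GAM) : S_FL0 := by
  intro K _ _ _ p γ hp hcl
  obtain ⟨c, hc, hV⟩ := hV K p γ hp hcl
  have hG2 := (hG K p γ hp hcl).2
  have hK : ((Fintype.card K : ℕ) : ℂ) ≠ 0 := by exact_mod_cast Fintype.card_ne_zero
  have hc0 : c ≠ 0 := by
    apply hc
    rcases hG2 with h | h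
    · rw [h, Matrix.trace_one]
      exact hK
    · rw [h, Matrix.trace_neg, Matrix.trace_one]
      exact neg_ne_zero.2 hK
  have hden : ∀ y : Fin p → ℝ, 0 < (1 + ∑ j, y j ^ 2) ^ ((p + 1) / 2) := by
    intro y
    have : 0 ≤ ∑ j, y j ^ 2 := Finset.sum_nonneg fun j _ => sq_nonneg _
    positivity
  let f : (Fin p → ℝ) → ℝ := fun y => 1 / (1 + ∑ j, y j ^ 2) ^ ((p + 1) / 2)
  have hf : Continuous f := by
    refine continuous_const.div ?_ fun y => (hden y).ne'
    fun_prop
  have hfpos : ∀ y, 0 < f y := fun y => one_div_pos.2 (hden y)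
  have hpos : 0 < ∫ y in Set.Icc (fun _ => -1 : Fin p → ℝ) (fun _ => 1), f y := by
    rw [setIntegral_pos_iff_support_of_nonneg_ae]
    · have h1 : Function.support f = Set.univ := by
        ext y
        simp only [Function.mem_support, Set.mem_univ, iff_true]
        exact (hfpos y).ne'
      rw [h1, Set.univ_inter, Real.volume_Icc_pi, pos_iff_ne_zero, Finset.prod_ne_zero_iff]
      intro i _
      rw [← pos_iff_ne_zero, ENNReal.ofReal_pos]
      norm_num
    · exact Filter.Eventually.of_forall fun y => (hfpos y).le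
    · exact hf.integrableOn_Icc
  have h1 : ∀ (i : Fin (p + 1)) (t : ℝ), t ^ 2 = 1 → ∀ y : Fin p → ℝ,
      VF 0 γ (i.insertNth t y) i = (c * (t : ℂ)) * ((f y : ℝ) : ℂ) := by
    intro i t ht y
    have hx0 : (i.insertNth t y : Fin (p + 1) → ℝ) ≠ 0 := by
      intro h
      have h2 := congrFun h i
      rw [Fin.insertNth_apply_same] at h2
      rw [h2] at ht
      norm_num at ht
    have h3 : ∑ j, (i.insertNth t y : Fin (p + 1) → ℝ) j ^ 2 = 1 + ∑ j, y j ^ 2 := by
      rw [Fin.sum_univ_succAbove _ i, Fin.insertNth_apply_same, ht]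
      congr 1
      refine Finset.sum_congr rfl fun j _ => ?_
      rw [Fin.insertNth_apply_succAbove]
    rw [hV _ hx0 i, Fin.insertNth_apply_same, h3]
    show c * ((t / (1 + ∑ j, y j ^ 2) ^ ((p + 1) / 2) : ℝ) : ℂ)
      = c * (t : ℂ) * ((1 / (1 + ∑ j, y j ^ 2) ^ ((p + 1) / 2) : ℝ) : ℂ)
    push_cast
    ring
  set I : ℝ := ∫ y in Set.Icc (fun _ => -1 : Fin p → ℝ) (fun _ => 1), f y with hI
  have h2 : ∀ (i : Fin (p + 1)) (t : ℝ), t ^ 2 = 1 →
      ∫ y in Set.Icc (fun _ => -1 : Fin p → ℝ) (fun _ => 1), VF 0 γ (i.insertNth t y) i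
        = (c * (t : ℂ)) * (I : ℂ) := by
    intro i t ht
    have h3 : (fun y : Fin p → ℝ => VF 0 γ (i.insertNth t y) i)
        = fun y => (c * (t : ℂ)) * ((f y : ℝ) : ℂ) := by
      funext y
      exact h1 i t ht y
    rw [h3, integral_const_mul, integral_complex_ofReal]
  have h4 : flux (0 : Matrix K K ℂ) γ = ((p + 1 : ℕ) : ℂ) * (2 * c * (I : ℂ)) := by
    unfold flux
    have h5 : ∀ i : Fin (p + 1),
        ((∫ y in Set.Icc (fun _ => -1 : Fin p → ℝ) (fun _ => 1),
            VF (0 : Matrix K K ℂ) γ (i.insertNth 1 y) i) -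
          ∫ y in Set.Icc (fun _ => -1 : Fin p → ℝ) (fun _ => 1),
            VF (0 : Matrix K K ℂ) γ (i.insertNth (-1) y) i) = 2 * c * (I : ℂ) := by
      intro i
      rw [h2 i 1 (by norm_num), h2 i (-1) (by norm_num)]
      push_cast
      ring
    rw [Finset.sum_congr rfl fun i _ => h5 i, Finset.sum_const, Finset.card_univ, Fintype.card_fin,
      nsmul_eq_mul]
  rw [h4]
  have hI0 : (I : ℂ) ≠ 0 := by exact_mod_cast hpos.ne'
  have hp0 : ((p + 1 : ℕ) : ℂ) ≠ 0 := by exact_mod_cast Nat.succ_ne_zero p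
  exact mul_ne_zero hp0 (mul_ne_zero (mul_ne_zero two_ne_zero hc0) hI0)

end Run7.helper722.CL
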